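import Pool.Agent.MP_515557_an.H11.MDefs

/-! From smooth test maps on the complex plane to Lipschitz test maps and matrices. -/

set_option autoImplicit false

open MeasureTheory Set Metric Filter Topology ContinuousLinearMap
open scoped Convolution

namespace Pool.Agent.MP_515557_an.H79

open Pool.Agent.MP_515557_an.H11.Mono

/-- Bump functions with shrinking radii. -/
noncomputable def bump (n : ℕ) : ContDiffBump (0 : ℂ) where
  rIn := 1 / ((n : ℝ) + 1) / 2
  rOut := 1 / ((n : ℝ) + 1)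
  rIn_pos := by positivity
  rIn_lt_rOut := half_lt_self (by positivity)

theorem bump_le (n : ℕ) : (bump n).rOut ≤ 1 := by
  change 1 / ((n : ℝ) + 1) ≤ 1
  rw [div_le_one (by positivity)]
  linarith [Nat.cast_nonneg (α := ℝ) n]

theorem hasFDerivAt_conv (φ : ContDiffBump (0 : ℂ)) {u : ℂ → ℂ} {L : NNReal}
    (hu : LipschitzWith L u) (x : ℂ) :
    HasFDerivAt (φ.normed volume ⋆[lsmul ℝ ℝ, volume] u)
      ((φ.normed volume ⋆[lsmul ℝ ℝ, volume] fderiv ℝ u) x) x := by
  have hc := φ.continuous_normed (μ := volume)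
  have hcu := hu.continuous
  have hmp : MeasurePreserving (fun a : ℂ => x - a) volume volume :=
    Measure.measurePreserving_sub_left volume x
  refine (hasFDerivAt_integral_of_dominated_loc_of_lip' (𝕜 := ℝ) (μ := volume)
    (F := fun y a => φ.normed volume a • u (y - a))
    (F' := fun a => φ.normed volume a • fderiv ℝ u (x - a))
    (bound := fun a => φ.normed volume a * L) univ_mem (fun y _ => ?_) ?_ ?_ ?_ ?_ ?_).2
  · exact (by fun_prop : Continuous fun a => φ.normed volume a • u (y - a)).aestronglyMeasurable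
  · exact (by fun_prop : Continuous fun a => φ.normed volume a • u (x - a)).integrable_of_hasCompactSupport
      (φ.hasCompactSupport_normed.smul_right (f' := fun a => u (x - a)))
  · exact hc.aestronglyMeasurable.smul
      ((measurable_fderiv ℝ u).comp (by fun_prop)).aestronglyMeasurable
  · refine Eventually.of_forall fun a y _ => ?_
    rw [← smul_sub, norm_smul, Real.norm_of_nonneg (φ.nonneg_normed a), mul_assoc]
    refine mul_le_mul_of_nonneg_left ?_ (φ.nonneg_normed a)
    simpa using hu.norm_sub_le (y - a) (x - a)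
  · exact φ.integrable_normed.mul_const _
  · filter_upwards [hmp.quasiMeasurePreserving.ae (hu.ae_differentiableAt (μ := volume))] with a ha
    have h1 : HasFDerivAt (fun y : ℂ => u (y - a)) (fderiv ℝ u (x - a)) x := by
      have h2 := ha.hasFDerivAt.comp x ((hasFDerivAt_id x).sub_const a)
      rw [ContinuousLinearMap.comp_id] at h2
      exact h2
    exact h1.const_smul (φ.normed volume a)

theorem norm_conv_le (φ : ContDiffBump (0 : ℂ)) {g : ℂ → (ℂ →L[ℝ] ℂ)} {L : ℝ}
    (hg : ∀ x, ‖g x‖ ≤ L) (x : ℂ) : ‖(φ.normed volume ⋆[lsmul ℝ ℝ, volume] g) x‖ ≤ L := by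
  rw [convolution_lsmul]
  refine (norm_integral_le_of_norm_le (φ.integrable_normed.mul_const L)
    (Eventually.of_forall fun a => ?_)).trans ?_
  · rw [norm_smul, Real.norm_of_nonneg (φ.nonneg_normed a)]
    exact mul_le_mul_of_nonneg_left (hg _) (φ.nonneg_normed a)
  · rw [integral_mul_const, φ.integral_normed, one_mul]

theorem conv_zero (φ : ContDiffBump (0 : ℂ)) (hφ : φ.rOut ≤ 1) {u : ℂ → ℂ} {R : ℝ}
    (hR : ∀ x, x ∉ closedBall (0 : ℂ) R → u x = 0) (x : ℂ) (hx : x ∉ closedBall (0 : ℂ) (R + 1)) :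
    (φ.normed volume ⋆[lsmul ℝ ℝ, volume] u) x = 0 := by
  rw [convolution_lsmul]
  refine integral_eq_zero_of_ae (Eventually.of_forall fun a => ?_)
  by_cases ha : a ∈ ball (0 : ℂ) φ.rOut
  · have : u (x - a) = 0 := by
      refine hR _ fun h => hx ?_
      rw [mem_closedBall_zero_iff] at h ⊢
      rw [mem_ball_zero_iff] at ha
      linarith [norm_le_norm_sub_add x a]
    simp [this]
  · rw [← φ.support_normed_eq (μ := volume), Function.notMem_support] at ha
    simp [ha]

theorem fderiv_zero_off {u : ℂ → ℂ} {R : ℝ} (hR : ∀ x, x ∉ closedBall (0 : ℂ) R → u x = 0)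
    (x : ℂ) (hx : x ∉ closedBall (0 : ℂ) R) : fderiv ℝ u x = 0 := by
  have : u =ᶠ[𝓝 x] fun _ => 0 := by
    filter_upwards [isClosed_closedBall.isOpen_compl.mem_nhds hx] with y hy using hR y hy
  rw [this.fderiv_eq, fderiv_fun_const]
  rfl

theorem lip_sqc {W : (ℂ →L[ℝ] ℂ) → ℝ} (hW : Continuous W) (h : SQC W) (A : ℂ →L[ℝ] ℂ)
    {u : ℂ → ℂ} {L : NNReal} (hu : LipschitzWith L u) {R : ℝ}
    (hR : ∀ x, x ∉ closedBall (0 : ℂ) R → u x = 0) :
    0 ≤ ∫ x, (W (A + fderiv ℝ u x) - W A) := by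
  have hc : Continuous fun T : ℂ →L[ℝ] ℂ => W (A + T) - W A := by fun_prop
  obtain ⟨B, hB⟩ := (isCompact_closedBall (0 : ℂ →L[ℝ] ℂ) L).exists_bound_of_continuousOn
    hc.continuousOn
  have hL : ∀ x, ‖fderiv ℝ u x‖ ≤ L := fun x => norm_fderiv_le_of_lipschitz ℝ hu
  let v : ℕ → ℂ → ℂ := fun n => (bump n).normed volume ⋆[lsmul ℝ ℝ, volume] u
  have hv : ∀ n x, fderiv ℝ (v n) x =
      ((bump n).normed volume ⋆[lsmul ℝ ℝ, volume] fderiv ℝ u) x :=
    fun n x => (hasFDerivAt_conv (bump n) hu x).fderiv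
  have hz : ∀ n x, x ∉ closedBall (0 : ℂ) (R + 1) → v n x = 0 :=
    fun n => conv_zero (bump n) (bump_le n) hR
  have hloc : LocallyIntegrable (fderiv ℝ u) volume := by
    refine (locallyIntegrable_const (L : ℝ)).mono (measurable_fderiv ℝ u).aestronglyMeasurable
      (Eventually.of_forall fun x => ?_)
    simpa using hL x
  have hlim := ContDiffBump.ae_convolution_tendsto_right_of_locallyIntegrable (φ := bump)
    (l := atTop) (K := 2) tendsto_one_div_add_atTop_nhds_zero_nat
    (Eventually.of_forall fun n => by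
      change 1 / ((n : ℝ) + 1) ≤ 2 * (1 / ((n : ℝ) + 1) / 2)
      linarith) hloc
  refine ge_of_tendsto' (tendsto_integral_of_dominated_convergence
    (F := fun n x => W (A + fderiv ℝ (v n) x) - W A)
    ((closedBall (0 : ℂ) (R + 1)).indicator fun _ => B) (fun n => ?_) ?_ (fun n => ?_) ?_)
    fun n => h A (v n) ?_ (HasCompactSupport.intro (isCompact_closedBall _ _) (hz n))
  · exact (hc.measurable.comp (measurable_fderiv ℝ (v n))).aestronglyMeasurable
  · exact (integrable_indicator_iff measurableSet_closedBall).2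
      (integrableOn_const measure_closedBall_lt_top.ne)
  · refine Eventually.of_forall fun x => ?_
    by_cases hx : x ∈ closedBall (0 : ℂ) (R + 1)
    · rw [indicator_of_mem hx]
      refine hB _ ?_
      rw [mem_closedBall_zero_iff, hv]
      exact norm_conv_le _ hL x
    · rw [indicator_of_notMem hx, fderiv_zero_off (hz n) x hx]
      simp
  · filter_upwards [hlim] with x hx
    simp only [hv]
    exact (hc.tendsto _).comp hx
  · exact (bump n).hasCompactSupport_normed.contDiff_convolution_left _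
      (bump n).contDiff_normed hu.continuous.locallyIntegrable

theorem fderiv_ae_zero {ϑ : (Fin 2 → ℝ) → (Fin 2 → ℝ)} {Ω : Set (Fin 2 → ℝ)} (hΩ : IsOpen Ω)
    (h0 : ∀ x, x ∉ Ω → ϑ x = 0) : ∀ᵐ x, x ∉ Ω → fderiv ℝ ϑ x = 0 := by
  set s : Set (Fin 2 → ℝ) := Ωᶜ ∩ {x | DifferentiableAt ℝ ϑ x} with hs
  have hsm : MeasurableSet s :=
    hΩ.measurableSet.compl.inter (measurableSet_of_differentiableAt ℝ ϑ)
  have happ : ApproximatesLinearOn ϑ (0 : (Fin 2 → ℝ) →L[ℝ] (Fin 2 → ℝ)) s 0 := by
    intro x hx y hy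
    simp [h0 x hx.1, h0 y hy.1]
  have := happ.norm_fderiv_sub_le volume hsm (fderiv ℝ ϑ)
    (fun x hx => hx.2.hasFDerivAt.hasFDerivWithinAt)
  rw [ae_restrict_iff' hsm] at this
  filter_upwards [this] with x hx hxΩ
  by_cases hd : DifferentiableAt ℝ ϑ x
  · simpa using hx ⟨hxΩ, hd⟩
  · exact fderiv_zero_of_not_differentiableAt hd

/-- The identification of the complex plane with pairs of reals. -/
noncomputable def eqv : ℂ ≃L[ℝ] (Fin 2 → ℝ) := Complex.basisOneI.equivFun.toContinuousLinearEquiv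

theorem eqv_apply (a : ℂ) : eqv a = ![a.re, a.im] := rfl

theorem eqv_symm_apply (p : Fin 2 → ℝ) : eqv.symm p = p 0 + p 1 * Complex.I := rfl

/-- A linear map of pairs of reals seen in the complex plane. -/
noncomputable def tr (T : (Fin 2 → ℝ) →L[ℝ] (Fin 2 → ℝ)) : ℂ →L[ℝ] ℂ :=
  (eqv.symm : (Fin 2 → ℝ) →L[ℝ] ℂ).comp (T.comp (eqv : ℂ →L[ℝ] (Fin 2 → ℝ)))

theorem continuous_tr : Continuous tr := by
  unfold tr
  fun_prop

theorem toCLM_add (F : Matrix (Fin 2) (Fin 2) ℝ) (T : (Fin 2 → ℝ) →L[ℝ] (Fin 2 → ℝ)) :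
    toCLM (F + LinearMap.toMatrix' (T : (Fin 2 → ℝ) →ₗ[ℝ] (Fin 2 → ℝ))) = toCLM F + tr T := by
  ext1 z
  have e : T ![z.re, z.im] = z.re • T (Pi.single 0 1) + z.im • T (Pi.single 1 1) := by
    rw [← map_smul, ← map_smul, ← map_add]
    congr 1
    ext i
    fin_cases i <;> simp
  apply Complex.ext <;>
    simp [toCLM, tr, eqv_apply, eqv_symm_apply, e, LinearMap.toMatrix'_apply] <;> ring

theorem moll : SMoll := by
  rintro W hW h F₀ Ω hΩ hb ϑ ⟨L, hL⟩ h0
  simp only [toCLM_add]
  set A := toCLM F₀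
  let u : ℂ → ℂ := eqv.symm ∘ ϑ ∘ eqv
  have hu := eqv.symm.lipschitz.comp (hL.comp eqv.lipschitz)
  obtain ⟨R, hR⟩ := (eqv.symm.lipschitz.isBounded_image hb).subset_closedBall (0 : ℂ)
  have h1 := lip_sqc hW h A (u := u) hu (R := R) fun x hx => by
    have : ϑ (eqv x) = 0 := h0 _ fun hx' => hx (hR ⟨_, hx', eqv.symm_apply_apply x⟩)
    simp [u, this]
  have e1 : ∀ x, fderiv ℝ u x = tr (fderiv ℝ ϑ (eqv x)) := fun x => by
    rw [eqv.symm.comp_fderiv, eqv.comp_right_fderiv]
    rfl
  have e2 : ∫ x, (W (A + fderiv ℝ u x) - W A) = ∫ y, (W (A + tr (fderiv ℝ ϑ y)) - W A) := by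
    simp only [e1]
    exact Complex.volume_preserving_equiv_pi.integral_comp'
      (fun y => W (A + tr (fderiv ℝ ϑ y)) - W A)
  have hfin : volume Ω ≠ ⊤ := hb.measure_lt_top.ne
  have hc : Continuous fun T => W (A + tr T) := hW.comp (continuous_const.add continuous_tr)
  obtain ⟨B, hB⟩ := (isCompact_closedBall (0 : (Fin 2 → ℝ) →L[ℝ] (Fin 2 → ℝ))
    L).exists_bound_of_continuousOn hc.continuousOn
  have i1 : IntegrableOn (fun y => W (A + tr (fderiv ℝ ϑ y))) Ω volume := by
    refine Measure.integrableOn_of_bounded (M := B) hfin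
      (hc.measurable.comp (measurable_fderiv ℝ ϑ)).aestronglyMeasurable
      (Eventually.of_forall fun x => hB _ ?_)
    rw [mem_closedBall_zero_iff]
    exact norm_fderiv_le_of_lipschitz ℝ hL
  rw [e2, ← setIntegral_eq_integral_of_ae_compl_eq_zero (s := Ω),
    integral_sub i1 (integrableOn_const hfin), integral_const, measureReal_restrict_apply_univ,
    smul_eq_mul, sub_nonneg, mul_comm] at h1
  · exact h1
  · filter_upwards [fderiv_ae_zero hΩ h0] with y hy hy'
    simp [hy hy', tr]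

end Pool.Agent.MP_515557_an.H79
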